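import Pool.Agent.Work.MP_f7ef37_lc.DH.StmtsC
import Pool.Agent.Work.MP_f7ef37_lc.DH.I_FIN

/-!
# Item FINC of the block DH: the theorem from its parts
-/

set_option autoImplicit false

open Classical

namespace Pool.Agent.Work.MP_f7ef37_lc.DH.NFINC

open Pool.Agent.Work.MP_f7ef37_lc.OP

theorem prf (hB : S_BOARD3) (hR : S_RAND) (hS : S_RES) (hT : S_TAME2) (hN : S_NUM)
    (hC : S_CORE) : S_DHC := by
  obtain ⟨L0, hC⟩ := hC
  obtain ⟨L1, hN⟩ := hN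
  refine ⟨⌈Real.exp (L0 + L1 + 1)⌉₊, ?_⟩
  intro n hn m hm L hL hLn t ht k P hP hsize
  by_contra hcon
  push Not at hcon
  have hexp : Real.exp (L0 + L1 + 1) ≤ (n : ℝ) := le_trans (Nat.le_ceil _) (by exact_mod_cast hn)
  have hnpos : (0 : ℝ) < n := lt_of_lt_of_le (Real.exp_pos _) hexp
  have hn1 : 1 ≤ n := by exact_mod_cast hnpos
  have hlog : (L0 : ℝ) + L1 + 1 ≤ Real.log n := by
    rw [Real.le_log_iff_exp_le hnpos]
    exact hexp
  have hL0 : (L0 : ℝ) + L1 + 1 ≤ (L : ℝ) := hlog.trans hL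
  have hL0' : L0 + L1 + 1 ≤ L := by exact_mod_cast hL0
  have hL1n : 1 ≤ L := le_trans (Nat.le_add_left 1 (L0 + L1)) hL0'
  have hLR : (1 : ℝ) ≤ (L : ℝ) := by exact_mod_cast hL1n
  have hcon' : ∀ s, ∃ Y : Finset (Fin m), Y.card ≤ L ∧ (joins (P s) Y).card ≤ n ^ 2 / L ^ 170 := by
    intro s
    obtain ⟨Y, hY, h⟩ := hcon s
    refine ⟨Y, hY, ?_⟩
    rw [Nat.le_div_iff_mul_le (Nat.pow_pos hL1n), mul_comm]
    exact h
  obtain ⟨I, hI, K, Ds, h1, h2, h3, h4, h5, ⟨s0, h6⟩, h7⟩ := hB t m n k P L (n ^ 2 / L ^ 170)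
    hn1 hm hP hcon'
  have hE : Real.exp (2 * (L : ℝ)) = Real.exp L * Real.exp L := by
    rw [← Real.exp_add]
    congr 1
    ring
  have hE2 : 2 ≤ Real.exp (L : ℝ) := by
    have := Real.add_one_le_exp (L : ℝ)
    linarith
  have hnE : (n : ℝ) ≤ Real.exp L := by
    rw [← Real.log_le_iff_le_exp hnpos]
    exact hL
  have hK : (K : ℝ) ≤ Real.exp (2 * L) := by
    refine h3.trans ?_
    rw [hE]
    nlinarith
  have hIc : (Fintype.card I : ℝ) ≤ Real.exp (2 * L) := by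
    refine h2.trans (max_le ?_ ?_)
    · refine hsize.trans ?_
      rw [hE]
      nlinarith
    · refine hnE.trans ?_
      rw [hE]
      nlinarith
  have hE4 : Real.exp (2 * (L : ℝ)) ≤ Real.exp (2 * ((2 * L : ℕ) : ℝ)) := by
    apply Real.exp_le_exp.2
    push_cast
    linarith
  have hL1' : L1 ≤ L := by
    clear hcon' hcon hLn
    omega
  have hL2' : L0 ≤ 2 * L := by
    clear hcon' hcon hLn
    omega
  have hLpos : 0 < L := by
    clear hcon' hcon hLn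
    omega
  obtain ⟨c1, c2, c3⟩ := hN L hL1' n K hLn hK
  have hC' := hC (2 * L) hL2'
  have hNpos : 0 < (2 * L) ^ 80 := Nat.pow_pos (Nat.mul_pos two_pos hLpos)
  choose Ys hYs hJs using h7
  exact NFIN.aux hR hS hT n K L ((2 * L) ^ 80) (n ^ 2 / L ^ 170) t I Ds ht h1 (hIc.trans hE4)
    (hK.trans hE4) h4 h5 s0 h6 Ys hYs hJs hLpos hNpos c1 c2 c3 hC'

end Pool.Agent.Work.MP_f7ef37_lc.DH.NFINC
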