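import Pool.Agent.Work.MP_f7ef37_lc.DH.Stmts

/-!
# Block [f7ef37 DH], item NUM: the numbers
-/

set_option autoImplicit false

open Classical

namespace Pool.Agent.Work.MP_f7ef37_lc.DH.NNUM

open Pool.Agent.Work.MP_f7ef37_lc.OP

/-- `g L^9 ≤ B^2` -/
theorem key (L n B g N : ℕ) (hL : 2 ^ 162 ≤ L) (hN : N = (2 * L) ^ 80) (hB1 : 1 ≤ B)
    (hB : n < (B + 1) * N) (hg : g * L ^ 170 ≤ n ^ 2) : g * L ^ 9 ≤ B ^ 2 := by
  have hL0 : 0 < L := lt_of_lt_of_le (by norm_num) hL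
  have h1 : n ≤ 2 * B * N := by
    have h2 : (B + 1) * N ≤ 2 * B * N := Nat.mul_le_mul_right N (by omega)
    omega
  have h3 : n ^ 2 ≤ (2 * B * N) ^ 2 := Nat.pow_le_pow_left h1 2
  have h4 : (2 * B * N) ^ 2 = B ^ 2 * L ^ 160 * 2 ^ 162 := by
    rw [hN, mul_pow 2 L 80]
    ring
  have h5 : B ^ 2 * L ^ 160 * 2 ^ 162 ≤ B ^ 2 * L ^ 160 * L := Nat.mul_le_mul_left _ hL
  have h6 : B ^ 2 * L ^ 160 * L = B ^ 2 * L ^ 161 := by ring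
  have h7 : g * L ^ 170 = g * L ^ 9 * L ^ 161 := by ring
  have h8 : g * L ^ 9 * L ^ 161 ≤ B ^ 2 * L ^ 161 := by
    rw [← h7, ← h6]
    exact hg.trans (h3.trans (h4.le.trans h5))
  exact Nat.le_of_mul_le_mul_right h8 (pow_pos hL0 161)

theorem Ksmall (L K : ℕ) (hL : 3 ≤ L) (hK : (K : ℝ) ≤ Real.exp (2 * L)) :
    K < (L ^ 9) ^ (L / 2) := by
  have h1 : 2 * L < 9 * (L / 2) := by omega
  have h2 : (2 * (L : ℝ)) < ((9 * (L / 2) : ℕ) : ℝ) := by exact_mod_cast h1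
  have h3 : Real.exp (2 * (L : ℝ)) < Real.exp ((9 * (L / 2) : ℕ) : ℝ) := Real.exp_lt_exp.2 h2
  have h4 : Real.exp ((9 * (L / 2) : ℕ) : ℝ) = Real.exp 1 ^ (9 * (L / 2)) := by
    rw [← Real.exp_nat_mul, mul_one]
  have h5 : Real.exp 1 ≤ (L : ℝ) := by
    have h6 : (3 : ℝ) ≤ L := by exact_mod_cast hL
    have h7 := Real.exp_one_lt_d9
    linarith
  have h8 : Real.exp 1 ^ (9 * (L / 2)) ≤ (L : ℝ) ^ (9 * (L / 2)) :=
    pow_le_pow_left₀ (Real.exp_pos 1).le h5 _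
  have h9 : (K : ℝ) < (L : ℝ) ^ (9 * (L / 2)) := by
    rw [h4] at h3
    linarith
  rw [← pow_mul]
  exact_mod_cast h9

theorem prf : S_NUM := by
  refine ⟨2 ^ 162, fun L hL n K hn hK => ?_⟩
  have h3 : 3 ≤ L := le_trans (by norm_num) hL
  have hL0 : 0 < L := by omega
  have h80 : (2 * L) ^ 80 ≤ n := by
    have h1 : (2 * L) ^ 80 = 2 ^ 80 * L ^ 80 := mul_pow 2 L 80
    have h2 : 2 ^ 80 * L ^ 80 ≤ L * L ^ 80 := Nat.mul_le_mul_right _ (le_trans (by norm_num) hL)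
    have h4 : L * L ^ 80 = L ^ 81 := by ring
    rw [h1]
    exact h2.trans (h4.le.trans hn)
  have hN0 : 0 < (2 * L) ^ 80 := pow_pos (by omega) 80
  have hB1 : 1 ≤ n / (2 * L) ^ 80 := Nat.div_pos h80 hN0
  refine ⟨h80, hB1, ?_⟩
  have hkey := key L n (n / (2 * L) ^ 80) (n ^ 2 / L ^ 170) ((2 * L) ^ 80) hL rfl hB1
    (by
      have h5 := Nat.lt_mul_div_succ n hN0
      rw [mul_comm]
      exact h5) (Nat.div_mul_le_self _ _)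
  have hKs := Ksmall L K h3 hK
  have h6 : ((n ^ 2 / L ^ 170) * L ^ 9) ^ (L / 2) ≤ ((n / (2 * L) ^ 80) ^ 2) ^ (L / 2) :=
    Nat.pow_le_pow_left hkey _
  rw [mul_pow, ← pow_mul (n / (2 * L) ^ 80)] at h6
  have hBpos : 0 < (n / (2 * L) ^ 80) ^ (2 * (L / 2)) := pow_pos hB1 _
  have h7 : K * (n ^ 2 / L ^ 170) ^ (L / 2) * (L ^ 9) ^ (L / 2) <
      (n / (2 * L) ^ 80) ^ (2 * (L / 2)) * (L ^ 9) ^ (L / 2) := by
    calc K * (n ^ 2 / L ^ 170) ^ (L / 2) * (L ^ 9) ^ (L / 2)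
        = K * ((n ^ 2 / L ^ 170) ^ (L / 2) * (L ^ 9) ^ (L / 2)) := by rw [mul_assoc]
      _ ≤ K * (n / (2 * L) ^ 80) ^ (2 * (L / 2)) := Nat.mul_le_mul_left K h6
      _ < (L ^ 9) ^ (L / 2) * (n / (2 * L) ^ 80) ^ (2 * (L / 2)) :=
        Nat.mul_lt_mul_of_pos_right hKs hBpos
      _ = (n / (2 * L) ^ 80) ^ (2 * (L / 2)) * (L ^ 9) ^ (L / 2) := mul_comm _ _
  exact lt_of_mul_lt_mul_right h7 (Nat.zero_le _)

end Pool.Agent.Work.MP_f7ef37_lc.DH.NNUM
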