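import Pool.Agent.Work.MP_f7ef37_lc.DH.Stmts

/-!
# Block DH, item QUASI: the theorem for quasi-polynomial size (helper6)
-/

set_option autoImplicit false

open Classical

namespace Pool.Agent.Work.MP_f7ef37_lc.DH.NQUASI

open Pool.Agent.Work.MP_f7ef37_lc.OP

theorem prf (h : S_DH) : S_QUASI := by
  intro t c
  obtain ⟨n0, h⟩ := h
  refine ⟨170 * (c + 2), ?_⟩
  have hlogt : Filter.Tendsto (fun n : ℕ => Real.log (n : ℝ)) Filter.atTop Filter.atTop :=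
    Real.tendsto_log_atTop.comp tendsto_natCast_atTop_atTop
  -- `L = ⌈(log n) ^ (c + 1)⌉`
  have hev1 : ∀ᶠ n : ℕ in Filter.atTop, (2 : ℝ) + t ≤ Real.log n := hlogt.eventually_ge_atTop _
  have hev2 : ∀ᶠ n : ℕ in Filter.atTop, (Real.log (n : ℝ)) ^ ((c + 2) * 81) ≤ (n : ℝ) := by
    have h1 := (isLittleO_log_rpow_atTop (r := 1 / ((((c + 2) * 81 : ℕ) : ℝ))) (by positivity))
    have h2 := (h1.bound (c := 1) one_pos)
    have h3 := tendsto_natCast_atTop_atTop (R := ℝ)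
    filter_upwards [h3.eventually h2, h3.eventually_ge_atTop 1, hev1] with n hn hn1 hn2
    have hlog0 : (0 : ℝ) ≤ Real.log n := by linarith [Nat.cast_nonneg (α := ℝ) t]
    rw [Real.norm_of_nonneg hlog0, one_mul, Real.norm_of_nonneg (by positivity)] at hn
    calc (Real.log (n : ℝ)) ^ ((c + 2) * 81)
        ≤ ((n : ℝ) ^ (1 / ((((c + 2) * 81 : ℕ) : ℝ)))) ^ ((c + 2) * 81) :=
          pow_le_pow_left₀ hlog0 hn _
      _ = (n : ℝ) := by
          rw [← Real.rpow_natCast, ← Real.rpow_mul (by positivity)]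
          rw [one_div, inv_mul_cancel₀ (by positivity), Real.rpow_one]
  filter_upwards [hev1, hev2, Filter.eventually_ge_atTop n0] with n h1 h2 h3
  intro m hm k P hP hsize
  have ht0 : (0 : ℝ) ≤ t := Nat.cast_nonneg t
  have hlog2 : (2 : ℝ) ≤ Real.log n := by linarith
  have hlog1 : (1 : ℝ) ≤ Real.log n := by linarith
  have hpow1 : Real.log n ≤ (Real.log n) ^ (c + 1) := le_self_pow₀ hlog1 (by omega)
  have hceil : ((⌈(Real.log n) ^ (c + 1)⌉₊ : ℕ) : ℝ) ≤ (Real.log n) ^ (c + 2) := by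
    have h4 := Nat.ceil_lt_add_one (a := (Real.log (n : ℝ)) ^ (c + 1)) (by positivity)
    have h5 : (1 : ℝ) ≤ (Real.log n) ^ (c + 1) := one_le_pow₀ hlog1
    have h6 : (Real.log (n : ℝ)) ^ (c + 2) = (Real.log n) ^ (c + 1) * Real.log n := pow_succ _ _
    rw [h6]
    nlinarith
  have hcL : (Real.log (n : ℝ)) ^ c ≤ ((⌈(Real.log n) ^ (c + 1)⌉₊ : ℕ) : ℝ) :=
    le_trans (pow_le_pow_right₀ hlog1 (by omega)) (Nat.le_ceil _)
  obtain ⟨s, hs⟩ := h n h3 m hm ⌈(Real.log n) ^ (c + 1)⌉₊ (hpow1.trans (Nat.le_ceil _)) (by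
    have h7 : ((⌈(Real.log n) ^ (c + 1)⌉₊ : ℕ) : ℝ) ^ 81 ≤ (n : ℝ) := by
      refine le_trans (pow_le_pow_left₀ (Nat.cast_nonneg _) hceil 81) ?_
      rw [← pow_mul]
      exact h2
    exact_mod_cast h7) t (by
      have h8 : (t : ℝ) ≤ ((⌈(Real.log n) ^ (c + 1)⌉₊ : ℕ) : ℝ) :=
        le_trans (by linarith) (hpow1.trans (Nat.le_ceil _))
      exact_mod_cast h8) k P hP (hsize.trans (Real.exp_le_exp.2 hcL))
  refine ⟨s, ?_⟩
  intro Y hY
  have hYL : Y.card ≤ ⌈(Real.log (n : ℝ)) ^ (c + 1)⌉₊ := by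
    have := hY.trans hcL
    exact_mod_cast this
  have h9 : (n : ℝ) ^ 2 < ((⌈(Real.log n) ^ (c + 1)⌉₊ : ℕ) : ℝ) ^ 170 *
      ((joined (P s) Y).card : ℝ) := by
    exact_mod_cast hs Y hYL
  refine lt_of_lt_of_le h9 (mul_le_mul_of_nonneg_right ?_ (Nat.cast_nonneg _))
  refine le_trans (pow_le_pow_left₀ (Nat.cast_nonneg _) hceil 170) (le_of_eq ?_)
  rw [← pow_mul]
  congr 1
  ring

end Pool.Agent.Work.MP_f7ef37_lc.DH.NQUASI
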