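import Pool.Agent.Work.MP_f7ef37_lc.DH.Stmts

set_option autoImplicit false

open Classical

namespace Pool.Agent.Work.MP_f7ef37_lc.DH.NRAND

open Pool.Agent.Work.MP_f7ef37_lc.OP

/-- The endpoints of the pairs. -/
noncomputable def ep {n k : ℕ} (z : Fin k → Fin n × Fin n) : Finset (Fin n) :=
  Finset.univ.image (fun i => (z i).1) ∪ Finset.univ.image (fun i => (z i).2)

theorem mem_ep {n k : ℕ} (z : Fin k → Fin n × Fin n) (x : Fin n) :
    x ∈ ep z ↔ (∃ i, (z i).1 = x) ∨ (∃ i, (z i).2 = x) := by
  simp [ep]

theorem ep_cons {n k : ℕ} (q : Fin n × Fin n) (z : Fin k → Fin n × Fin n) :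
    ep (Fin.cons q z : Fin (k + 1) → Fin n × Fin n) = insert q.1 (insert q.2 (ep z)) := by
  ext x
  rw [mem_ep, Finset.mem_insert, Finset.mem_insert, mem_ep]
  simp only [Fin.exists_fin_succ, Fin.cons_zero, Fin.cons_succ]
  constructor
  · rintro ((h | h) | (h | h))
    · exact Or.inl h.symm
    · exact Or.inr (Or.inr (Or.inl h))
    · exact Or.inr (Or.inl h.symm)
    · exact Or.inr (Or.inr (Or.inr h))
  · rintro (h | h | h | h)
    · exact Or.inl (Or.inl h.symm)
    · exact Or.inr (Or.inl h.symm)
    · exact Or.inl (Or.inr h)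
    · exact Or.inr (Or.inr h)

/-- Matching or cover. -/
theorem cover {n : ℕ} (E : Finset (Fin n × Fin n)) (J' : Finset (Fin n))
    (hE : ∀ q ∈ E, q.1 ≠ q.2) (k : ℕ) :
    (∃ z : Fin k → Fin n × Fin n, (∀ i, z i ∈ E) ∧ ep z ⊆ J' ∧ (ep z).card = 2 * k) ∨
    (∃ C : Finset (Fin n), C ⊆ J' ∧ C.card ≤ 2 * k ∧
      ∀ q ∈ E, q.1 ∈ J' → q.2 ∈ J' → q.1 ∈ C ∨ q.2 ∈ C) := by
  induction k with
  | zero =>
      left
      refine ⟨fun i => i.elim0, fun i => i.elim0, ?_, ?_⟩
      · intro x hx
        rw [mem_ep] at hx
        rcases hx with ⟨i, _⟩ | ⟨i, _⟩ <;> exact i.elim0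
      · rw [Finset.card_eq_zero.mpr]
        rw [Finset.eq_empty_iff_forall_notMem]
        intro x hx
        rw [mem_ep] at hx
        rcases hx with ⟨i, _⟩ | ⟨i, _⟩ <;> exact i.elim0
  | succ k ih =>
      rcases ih with ⟨z, hz, hJ, hc⟩ | ⟨C, hC, hcard, hcov⟩
      · by_cases hall : ∀ q ∈ E, q.1 ∈ J' → q.2 ∈ J' → q.1 ∈ ep z ∨ q.2 ∈ ep z
        · right
          exact ⟨ep z, hJ, by omega, hall⟩
        · push Not at hall
          obtain ⟨q, hq, h1, h2, h3, h4⟩ := hall
          left
          refine ⟨Fin.cons q z, ?_, ?_, ?_⟩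
          · intro i
            refine Fin.cases ?_ (fun j => ?_) i
            · simpa using hq
            · simpa using hz j
          · rw [ep_cons]
            intro x hx
            rw [Finset.mem_insert, Finset.mem_insert] at hx
            rcases hx with rfl | rfl | hx
            · exact h1
            · exact h2
            · exact hJ hx
          · rw [ep_cons, Finset.card_insert_of_notMem, Finset.card_insert_of_notMem h4, hc]
            · ring
            · rw [Finset.mem_insert]
              rintro (h | h)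
              · exact hE q hq h
              · exact h3 h
      · right
        exact ⟨C, hC, by omega, hcov⟩

section
variable {n n' B : ℕ}

/-- The hole number `b` of the block `a`. -/
def idx (hn : n' * B ≤ n) (a : Fin n') (b : Fin B) : Fin n :=
  ⟨a.val * B + b.val, by
    have h1 : a.val * B + b.val < (a.val + 1) * B := by
      have := b.isLt
      rw [Nat.add_mul, Nat.one_mul]
      omega
    have h2 : (a.val + 1) * B ≤ n' * B := Nat.mul_le_mul_right B a.isLt
    omega⟩

theorem idx_inj (hn : n' * B ≤ n) (a a' : Fin n') (b b' : Fin B) (h : idx hn a b = idx hn a' b') :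
    a = a' ∧ b = b' := by
  have h1 : a.val * B + b.val = a'.val * B + b'.val := congrArg Fin.val h
  have hB : 0 < B := lt_of_le_of_lt (Nat.zero_le _) b.isLt
  have e1 : (a.val * B + b.val) / B = a.val := by
    rw [Nat.add_comm, Nat.add_mul_div_right _ _ hB, Nat.div_eq_of_lt b.isLt, Nat.zero_add]
  have e2 : (a'.val * B + b'.val) / B = a'.val := by
    rw [Nat.add_comm, Nat.add_mul_div_right _ _ hB, Nat.div_eq_of_lt b'.isLt, Nat.zero_add]
  have ha : a.val = a'.val := by rw [← e1, ← e2, h1]
  have hb : b.val = b'.val := by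
    rw [ha] at h1
    omega
  exact ⟨Fin.ext ha, Fin.ext hb⟩

/-- The random set of holes. -/
noncomputable def Jh (hn : n' * B ≤ n) (h : Fin n' → Fin B) : Finset (Fin n) :=
  Finset.univ.image (fun a => idx hn a (h a))

theorem Jh_card (hn : n' * B ≤ n) (h : Fin n' → Fin B) : (Jh hn h).card = n' := by
  unfold Jh
  rw [Finset.card_image_of_injective _ (fun a a' haa => (idx_inj hn _ _ _ _ haa).1),
    Finset.card_univ, Fintype.card_fin]

theorem count (hn : n' * B ≤ n) (S : Finset (Fin n)) :
    ((Finset.univ : Finset (Fin n' → Fin B)).filter (fun h => S ⊆ Jh hn h)).card * B ^ S.card ≤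
      B ^ n' := by
  rcases Finset.eq_empty_or_nonempty
    ((Finset.univ : Finset (Fin n' → Fin B)).filter (fun h => S ⊆ Jh hn h)) with he | he
  · rw [he, Finset.card_empty, Nat.zero_mul]
    exact Nat.zero_le _
  · obtain ⟨h0, hh0⟩ := he
    rw [Finset.mem_filter] at hh0
    have hS := hh0.2
    let A : Finset (Fin n') := Finset.univ.filter (fun a => idx hn a (h0 a) ∈ S)
    have hSA : S = A.image (fun a => idx hn a (h0 a)) := by
      ext x
      constructor
      · intro hx
        have h1 := hS hx
        unfold Jh at h1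
        rw [Finset.mem_image] at h1
        obtain ⟨a, _, rfl⟩ := h1
        exact Finset.mem_image_of_mem _ (Finset.mem_filter.mpr ⟨Finset.mem_univ _, hx⟩)
      · intro hx
        rw [Finset.mem_image] at hx
        obtain ⟨a, ha, rfl⟩ := hx
        exact (Finset.mem_filter.mp ha).2
    have hcard : S.card = A.card := by
      rw [hSA]
      exact Finset.card_image_of_injective _ (fun a a' haa => (idx_inj hn _ _ _ _ haa).1)
    have hsub : (Finset.univ : Finset (Fin n' → Fin B)).filter (fun h => S ⊆ Jh hn h) ⊆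
        Fintype.piFinset (fun a => if a ∈ A then {h0 a} else (Finset.univ : Finset (Fin B))) := by
      intro h hh
      rw [Finset.mem_filter] at hh
      rw [Fintype.mem_piFinset]
      intro a
      by_cases ha : a ∈ A
      · rw [if_pos ha, Finset.mem_singleton]
        have h1 : idx hn a (h0 a) ∈ S := (Finset.mem_filter.mp ha).2
        have h2 := hh.2 h1
        unfold Jh at h2
        rw [Finset.mem_image] at h2
        obtain ⟨a', _, h3⟩ := h2
        obtain ⟨h4, h5⟩ := idx_inj hn _ _ _ _ h3
        subst h4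
        exact h5
      · rw [if_neg ha]
        exact Finset.mem_univ _
    have hle := Finset.card_le_card hsub
    rw [Fintype.card_piFinset] at hle
    have hprod : (∏ a, (if a ∈ A then ({h0 a} : Finset (Fin B)) else
        (Finset.univ : Finset (Fin B))).card) * B ^ A.card = B ^ n' := by
      have h1 : ∀ a ∈ (Finset.univ : Finset (Fin n')),
          (if a ∈ A then ({h0 a} : Finset (Fin B)) else (Finset.univ : Finset (Fin B))).card =
          (if a ∈ A then 1 else B) := by
        intro a _
        by_cases ha : a ∈ A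
        · rw [if_pos ha, if_pos ha, Finset.card_singleton]
        · rw [if_neg ha, if_neg ha, Finset.card_univ, Fintype.card_fin]
      rw [Finset.prod_congr rfl h1]
      have h2 : B ^ A.card = ∏ a : Fin n', (if a ∈ A then B else 1) := by
        rw [Finset.prod_ite, Finset.prod_const, Finset.prod_const_one, Nat.mul_one]
        congr 2
        ext a
        simp
      rw [h2, ← Finset.prod_mul_distrib]
      have h3 : ∀ a ∈ (Finset.univ : Finset (Fin n')),
          (if a ∈ A then 1 else B) * (if a ∈ A then B else 1) = B := by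
        intro a _
        by_cases ha : a ∈ A
        · rw [if_pos ha, if_pos ha, Nat.one_mul]
        · rw [if_neg ha, if_neg ha, Nat.mul_one]
      rw [Finset.prod_congr rfl h3, Finset.prod_const, Finset.card_univ, Fintype.card_fin]
    rw [hcard]
    calc _ ≤ (∏ a, (if a ∈ A then ({h0 a} : Finset (Fin B)) else
        (Finset.univ : Finset (Fin B))).card) * B ^ A.card := Nat.mul_le_mul_right _ hle
      _ = B ^ n' := hprod

end

theorem prf : S_RAND := by
  intro n n' B k K g G hG hn hB hg hK
  let Bad : Finset (Fin n' → Fin B) :=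
    (Finset.univ : Finset (Fin K)).biUnion (fun s =>
      (Fintype.piFinset (fun _ : Fin k => G s)).biUnion (fun z =>
        if (ep z).card = 2 * k then
          (Finset.univ : Finset (Fin n' → Fin B)).filter (fun h => ep z ⊆ Jh hn h) else ∅))
  have hbad : Bad.card * B ^ (2 * k) ≤ K * g ^ k * B ^ n' := by
    have h1 : ∀ s, ∀ z ∈ Fintype.piFinset (fun _ : Fin k => G s),
        (if (ep z).card = 2 * k then
          (Finset.univ : Finset (Fin n' → Fin B)).filter (fun h => ep z ⊆ Jh hn h)
          else ∅).card * B ^ (2 * k) ≤ B ^ n' := by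
      intro s z _
      by_cases hc : (ep z).card = 2 * k
      · rw [if_pos hc, ← hc]
        exact count hn (ep z)
      · rw [if_neg hc, Finset.card_empty, Nat.zero_mul]
        exact Nat.zero_le _
    have h2 : ∀ s : Fin K, ((Fintype.piFinset (fun _ : Fin k => G s)).biUnion (fun z =>
        if (ep z).card = 2 * k then
          (Finset.univ : Finset (Fin n' → Fin B)).filter (fun h => ep z ⊆ Jh hn h)
          else ∅)).card * B ^ (2 * k) ≤ g ^ k * B ^ n' := by
      intro s
      calc _ ≤ (∑ z ∈ Fintype.piFinset (fun _ : Fin k => G s), (if (ep z).card = 2 * k then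
            (Finset.univ : Finset (Fin n' → Fin B)).filter (fun h => ep z ⊆ Jh hn h)
            else ∅).card) * B ^ (2 * k) := Nat.mul_le_mul_right _ Finset.card_biUnion_le
        _ = ∑ z ∈ Fintype.piFinset (fun _ : Fin k => G s), (if (ep z).card = 2 * k then
            (Finset.univ : Finset (Fin n' → Fin B)).filter (fun h => ep z ⊆ Jh hn h)
            else ∅).card * B ^ (2 * k) := Finset.sum_mul _ _ _
        _ ≤ ∑ z ∈ Fintype.piFinset (fun _ : Fin k => G s), B ^ n' := Finset.sum_le_sum (h1 s)
        _ = (G s).card ^ k * B ^ n' := by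
            rw [Finset.sum_const, smul_eq_mul, Fintype.card_piFinset, Finset.prod_const,
              Finset.card_univ, Fintype.card_fin]
        _ ≤ g ^ k * B ^ n' := Nat.mul_le_mul_right _ (Nat.pow_le_pow_left (hg s) k)
    calc Bad.card * B ^ (2 * k) ≤ (∑ s : Fin K, ((Fintype.piFinset (fun _ : Fin k => G s)).biUnion
          (fun z => if (ep z).card = 2 * k then
            (Finset.univ : Finset (Fin n' → Fin B)).filter (fun h => ep z ⊆ Jh hn h)
            else ∅)).card) * B ^ (2 * k) := Nat.mul_le_mul_right _ Finset.card_biUnion_le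
      _ = ∑ s : Fin K, ((Fintype.piFinset (fun _ : Fin k => G s)).biUnion
          (fun z => if (ep z).card = 2 * k then
            (Finset.univ : Finset (Fin n' → Fin B)).filter (fun h => ep z ⊆ Jh hn h)
            else ∅)).card * B ^ (2 * k) := Finset.sum_mul _ _ _
      _ ≤ ∑ s : Fin K, g ^ k * B ^ n' := Finset.sum_le_sum (fun s _ => h2 s)
      _ = K * g ^ k * B ^ n' := by
          rw [Finset.sum_const, smul_eq_mul, Finset.card_univ, Fintype.card_fin, Nat.mul_assoc]
  have hlt : Bad.card < (Finset.univ : Finset (Fin n' → Fin B)).card := by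
    rw [Finset.card_univ, Fintype.card_fun, Fintype.card_fin, Fintype.card_fin]
    have hpos : 0 < B ^ n' := Nat.pow_pos hB
    have h1 : Bad.card * B ^ (2 * k) < B ^ n' * B ^ (2 * k) := by
      calc Bad.card * B ^ (2 * k) ≤ K * g ^ k * B ^ n' := hbad
        _ < B ^ (2 * k) * B ^ n' := Nat.mul_lt_mul_of_pos_right hK hpos
        _ = B ^ n' * B ^ (2 * k) := Nat.mul_comm _ _
    exact lt_of_mul_lt_mul_right h1 (Nat.zero_le _)
  obtain ⟨h, _, hh⟩ := Finset.exists_mem_notMem_of_card_lt_card hlt
  refine ⟨Jh hn h, Jh_card hn h, ?_⟩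
  intro s
  rcases cover (G s) (Jh hn h) (hG s) k with ⟨z, hz, hJ, hc⟩ | ⟨C, h1, h2, h3⟩
  · exfalso
    apply hh
    refine Finset.mem_biUnion.mpr ⟨s, Finset.mem_univ _, Finset.mem_biUnion.mpr ⟨z, ?_, ?_⟩⟩
    · rw [Fintype.mem_piFinset]
      exact hz
    · rw [if_pos hc, Finset.mem_filter]
      exact ⟨Finset.mem_univ _, hJ⟩
  · exact ⟨C, h1, h2, h3⟩

end Pool.Agent.Work.MP_f7ef37_lc.DH.NRAND
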