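import Pool.Agent.Work.MP_f7ef37_lc.DH.Stmts

/-!
# Item RES
-/

set_option autoImplicit false

open Classical

namespace Pool.Agent.Work.MP_f7ef37_lc.DH.NRES

open Pool.Agent.Work.MP_f7ef37_lc.OP

variable {I J : Type} [Fintype I] [Fintype J] {I' : Finset I} {J' : Finset J}

/-- The embedding of the board edges. -/
def emb (f : {i // i ∈ I'} × {j // j ∈ J'}) : I × J := (f.1.val, f.2.val)

theorem emb_inj {f g : {i // i ∈ I'} × {j // j ∈ J'}} (h : emb f = emb g) : f = g := by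
  unfold emb at h
  simp only [Prod.mk.injEq] at h
  exact Prod.ext (Subtype.ext h.1) (Subtype.ext h.2)

theorem adj_emb {f g : {i // i ∈ I'} × {j // j ∈ J'}} : Adj (emb f) (emb g) ↔ Adj f g := by
  unfold Adj emb
  constructor
  · rintro (h | h)
    · exact Or.inl (Subtype.ext h)
    · exact Or.inr (Subtype.ext h)
  · rintro (h | h)
    · exact Or.inl (congrArg Subtype.val h)
    · exact Or.inr (congrArg Subtype.val h)

/-- What we use about `ρ`. -/
structure Rho (I' : Finset I) (J' : Finset J) (ρ : Finset (I × J)) : Prop where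
  mat : Mat ρ
  cl : ∀ e ∈ ρ, e.1 ∉ I'
  cr : ∀ e ∈ ρ, e.2 ∉ J'
  el : ∀ i, i ∉ I' → ∃ e ∈ ρ, e.1 = i
  er : ∀ j, j ∉ J' → ∃ e ∈ ρ, e.2 = j

theorem Rho.not_adj {ρ : Finset (I × J)} (H : Rho I' J' ρ) (f : {i // i ∈ I'} × {j // j ∈ J'})
    {e : I × J} (he : e ∈ ρ) : ¬ Adj e (emb f) := by
  rintro (h | h)
  · exact H.cl e he (h ▸ f.1.2)
  · exact H.cr e he (h ▸ f.2.2)

theorem Rho.not_mem {ρ : Finset (I × J)} (H : Rho I' J' ρ)
    (f : {i // i ∈ I'} × {j // j ∈ J'}) : emb f ∉ ρ := fun h =>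
  H.not_adj f h (Or.inl rfl)

theorem Rho.cases {ρ : Finset (I × J)} (H : Rho I' J' ρ) (e : I × J) :
    (∃ f : {i // i ∈ I'} × {j // j ∈ J'}, emb f = e) ∨ (∃ e' ∈ ρ, Adj e' e) := by
  by_cases h1 : e.1 ∈ I'
  · by_cases h2 : e.2 ∈ J'
    · exact Or.inl ⟨(⟨e.1, h1⟩, ⟨e.2, h2⟩), rfl⟩
    · obtain ⟨e', he', h⟩ := H.er _ h2
      exact Or.inr ⟨e', he', Or.inr h⟩
  · obtain ⟨e', he', h⟩ := H.el _ h1
    exact Or.inr ⟨e', he', Or.inl h⟩

/-- Cut down to the board. -/
noncomputable def cut (A : Finset (I × J)) : Finset ({i // i ∈ I'} × {j // j ∈ J'}) :=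
  Finset.univ.filter (fun f => emb f ∈ A)

theorem mem_cut {A : Finset (I × J)} {f : {i // i ∈ I'} × {j // j ∈ J'}} :
    f ∈ cut A ↔ emb f ∈ A := by
  unfold cut
  rw [Finset.mem_filter]
  exact ⟨fun h => h.2, fun h => ⟨Finset.mem_univ _, h⟩⟩

theorem cut_empty : cut (∅ : Finset (I × J)) = (∅ : Finset ({i // i ∈ I'} × {j // j ∈ J'})) := by
  ext f
  rw [mem_cut]
  simp

theorem cut_single (f : {i // i ∈ I'} × {j // j ∈ J'}) : cut {emb f} = {f} := by
  ext g
  rw [mem_cut, Finset.mem_singleton, Finset.mem_singleton]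
  exact ⟨emb_inj, fun h => congrArg emb h⟩

theorem cut_off {e : I × J} (h : ¬ ∃ f : {i // i ∈ I'} × {j // j ∈ J'}, emb f = e) :
    cut {e} = (∅ : Finset ({i // i ∈ I'} × {j // j ∈ J'})) := by
  ext g
  rw [mem_cut, Finset.mem_singleton]
  constructor
  · intro hg
    exact absurd ⟨g, hg⟩ h
  · intro hg
    exact absurd hg (Finset.notMem_empty _)

theorem cut_card (A : Finset (I × J)) :
    (cut A : Finset ({i // i ∈ I'} × {j // j ∈ J'})).card ≤ A.card := by
  refine Finset.card_le_card_of_injOn emb ?_ ?_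
  · intro f hf
    exact mem_cut.1 (Finset.mem_coe.1 hf)
  · intro f _ g _ h
    exact emb_inj h

/-- The good terms. -/
def Good (I' : Finset I) (J' : Finset J) (ρ : Finset (I × J))
    (T : Finset (I × J) × Finset (I × J)) : Prop :=
  (∀ e ∈ T.1, e ∈ ρ ∨ ∃ f : {i // i ∈ I'} × {j // j ∈ J'}, emb f = e) ∧ ∀ e ∈ T.2, e ∉ ρ

noncomputable def R0 (I' : Finset I) (J' : Finset J) (ρ : Finset (I × J)) (D : Ln I J) :
    Ln {i // i ∈ I'} {j // j ∈ J'} :=
  (D.filter (fun T => Good I' J' ρ T)).image (fun T => (cut T.1, cut T.2))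

theorem mem_R0 {ρ : Finset (I × J)} {D : Ln I J} {T : Finset (I × J) × Finset (I × J)}
    (h : T ∈ D) (hg : Good I' J' ρ T) : (cut T.1, cut T.2) ∈ R0 I' J' ρ D := by
  unfold R0
  exact Finset.mem_image.2 ⟨T, Finset.mem_filter.2 ⟨h, hg⟩, rfl⟩

/-- The matching `ρ ∪ b`. -/
noncomputable def up (ρ : Finset (I × J)) (b : Finset ({i // i ∈ I'} × {j // j ∈ J'})) :
    Finset (I × J) := ρ ∪ b.image emb

theorem mem_up {ρ : Finset (I × J)} {b : Finset ({i // i ∈ I'} × {j // j ∈ J'})} {e : I × J} :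
    e ∈ up ρ b ↔ e ∈ ρ ∨ ∃ f ∈ b, emb f = e := by
  unfold up
  rw [Finset.mem_union, Finset.mem_image]

theorem emb_mem_up {ρ : Finset (I × J)} (H : Rho I' J' ρ)
    {b : Finset ({i // i ∈ I'} × {j // j ∈ J'})} {f : {i // i ∈ I'} × {j // j ∈ J'}} :
    emb f ∈ up ρ b ↔ f ∈ b := by
  rw [mem_up]
  constructor
  · rintro (h | ⟨g, hg, h⟩)
    · exact absurd h (H.not_mem f)
    · rw [← emb_inj h]; exact hg
  · intro h
    exact Or.inr ⟨f, h, rfl⟩

theorem na_up {ρ : Finset (I × J)} (H : Rho I' J' ρ)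
    {b : Finset ({i // i ∈ I'} × {j // j ∈ J'})} {f : {i // i ∈ I'} × {j // j ∈ J'}} :
    NA (up ρ b) (emb f) ↔ NA b f := by
  constructor
  · intro h g hg ha
    exact h (emb g) ((emb_mem_up H).2 hg) (adj_emb.2 ha)
  · intro h e he ha
    rcases mem_up.1 he with h1 | ⟨g, hg, rfl⟩
    · exact H.not_adj f h1 ha
    · exact h g hg (adj_emb.1 ha)

theorem mat_up {ρ : Finset (I × J)} (H : Rho I' J' ρ)
    {b : Finset ({i // i ∈ I'} × {j // j ∈ J'})} (hb : Mat b) : Mat (up ρ b) := by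
  intro e he f hf ha
  rcases mem_up.1 he with h1 | ⟨g, hg, rfl⟩
  · rcases mem_up.1 hf with h2 | ⟨g', hg', rfl⟩
    · exact H.mat e h1 f h2 ha
    · exact absurd ha (H.not_adj g' h1)
  · rcases mem_up.1 hf with h2 | ⟨g', hg', rfl⟩
    · exfalso
      refine H.not_adj g h2 ?_
      rcases ha with h | h
      · exact Or.inl h.symm
      · exact Or.inr h.symm
    · rw [hb g hg g' hg' (adj_emb.1 ha)]

theorem sat_iff {ρ : Finset (I × J)} (H : Rho I' J' ρ) (D : Ln I J)
    (b : Finset ({i // i ∈ I'} × {j // j ∈ J'})) : Sat (R0 I' J' ρ D) b ↔ Sat D (up ρ b) := by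
  constructor
  · rintro ⟨T', hT', h1, h2⟩
    unfold R0 at hT'
    obtain ⟨T, hT, rfl⟩ := Finset.mem_image.1 hT'
    obtain ⟨hTD, hg1, hg2⟩ := Finset.mem_filter.1 hT
    refine ⟨T, hTD, ?_, ?_⟩
    · intro e he
      rcases hg1 e he with h | ⟨f, rfl⟩
      · exact mem_up.2 (Or.inl h)
      · exact (emb_mem_up H).2 (h1 (mem_cut.2 he))
    · intro e he
      by_cases hf : ∃ f : {i // i ∈ I'} × {j // j ∈ J'}, emb f = e
      · obtain ⟨f, rfl⟩ := hf
        obtain ⟨h3, h4⟩ := h2 f (mem_cut.2 he)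
        exact ⟨fun h => h3 ((emb_mem_up H).1 h), fun h => h4 ((na_up H).1 h)⟩
      · rcases H.cases e with h | ⟨e', he', ha⟩
        · exact absurd h hf
        · refine ⟨fun h => ?_, fun h => h e' (mem_up.2 (Or.inl he')) ha⟩
          rcases mem_up.1 h with h | ⟨f, -, hf'⟩
          · exact hg2 e he h
          · exact hf ⟨f, hf'⟩
  · rintro ⟨T, hT, h1, h2⟩
    refine ⟨_, mem_R0 hT ⟨?_, ?_⟩, ?_, ?_⟩
    · intro e he
      rcases mem_up.1 (h1 he) with h | ⟨f, -, hf⟩
      · exact Or.inl h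
      · exact Or.inr ⟨f, hf⟩
    · intro e he h
      exact (h2 e he).1 (mem_up.2 (Or.inl h))
    · intro f hf
      exact (emb_mem_up H).1 (h1 (mem_cut.1 hf))
    · intro f hf
      obtain ⟨h3, h4⟩ := h2 _ (mem_cut.1 hf)
      exact ⟨fun h => h3 ((emb_mem_up H).2 h), fun h => h4 ((na_up H).2 h)⟩

/-- Single positive edge of `ρ`. -/
theorem pos_rho {ρ : Finset (I × J)} (H : Rho I' J' ρ) {D : Ln I J} {e : I × J} (he : e ∈ ρ)
    (h : (({e}, ∅) : Finset (I × J) × Finset (I × J)) ∈ D) :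
    ((∅, ∅) : Finset ({i // i ∈ I'} × {j // j ∈ J'}) × _) ∈ R0 I' J' ρ D := by
  have h1 : Good I' J' ρ ({e}, ∅) := by
    refine ⟨?_, ?_⟩
    · intro f hf
      have hf' : f = e := Finset.mem_singleton.1 hf
      rw [hf']
      exact Or.inl he
    · intro f hf
      exact absurd hf (Finset.notMem_empty _)
  have h2 := mem_R0 h h1
  have h3 : cut ({e} : Finset (I × J)) = (∅ : Finset ({i // i ∈ I'} × {j // j ∈ J'})) := by
    apply cut_off
    rintro ⟨f, hf⟩
    exact H.not_mem f (hf ▸ he)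
  simpa only [h3, cut_empty] using h2

/-- Single positive edge of the board. -/
theorem pos_board {ρ : Finset (I × J)} {D : Ln I J} (f : {i // i ∈ I'} × {j // j ∈ J'})
    (h : (({emb f}, ∅) : Finset (I × J) × Finset (I × J)) ∈ D) :
    (({f}, ∅) : Finset ({i // i ∈ I'} × {j // j ∈ J'}) × _) ∈ R0 I' J' ρ D := by
  have h1 : Good I' J' ρ ({emb f}, ∅) := by
    refine ⟨?_, ?_⟩
    · intro g hg
      have hg' : g = emb f := Finset.mem_singleton.1 hg
      rw [hg']
      exact Or.inr ⟨f, rfl⟩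
    · intro f hf
      exact absurd hf (Finset.notMem_empty _)
  have h2 := mem_R0 h h1
  simpa only [cut_single, cut_empty] using h2

/-- Single negated edge off the board and not in `ρ`. -/
theorem neg_off {ρ : Finset (I × J)} {D : Ln I J} {e : I × J} (he : e ∉ ρ)
    (hf : ¬ ∃ f : {i // i ∈ I'} × {j // j ∈ J'}, emb f = e)
    (h : ((∅, {e}) : Finset (I × J) × Finset (I × J)) ∈ D) :
    ((∅, ∅) : Finset ({i // i ∈ I'} × {j // j ∈ J'}) × _) ∈ R0 I' J' ρ D := by
  have h1 : Good I' J' ρ (∅, {e}) := by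
    refine ⟨?_, ?_⟩
    · intro f hf
      exact absurd hf (Finset.notMem_empty _)
    · intro f hf
      have hf' : f = e := Finset.mem_singleton.1 hf
      rw [hf']
      exact he
  have h2 := mem_R0 h h1
  simpa only [cut_off hf, cut_empty] using h2

/-- Single negated edge of the board. -/
theorem neg_board {ρ : Finset (I × J)} (H : Rho I' J' ρ) {D : Ln I J}
    (f : {i // i ∈ I'} × {j // j ∈ J'})
    (h : ((∅, {emb f}) : Finset (I × J) × Finset (I × J)) ∈ D) :
    ((∅, {f}) : Finset ({i // i ∈ I'} × {j // j ∈ J'}) × _) ∈ R0 I' J' ρ D := by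
  have h1 : Good I' J' ρ (∅, {emb f}) := by
    refine ⟨?_, ?_⟩
    · intro f hf
      exact absurd hf (Finset.notMem_empty _)
    · intro g hg
      have hg' : g = emb f := Finset.mem_singleton.1 hg
      rw [hg']
      exact H.not_mem f
  have h2 := mem_R0 h h1
  simpa only [cut_single, cut_empty] using h2

/-- Axiom lines stay axiom lines unless the empty term appears. -/
theorem ax {ρ : Finset (I × J)} (H : Rho I' J' ρ) {D : Ln I J} (hD : AxLine D)
    (h0 : ((∅, ∅) : Finset ({i // i ∈ I'} × {j // j ∈ J'}) × _) ∉ R0 I' J' ρ D) :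
    AxLine (R0 I' J' ρ D) := by
  rcases hD with ⟨v, hv⟩ | ⟨e, f, hne, ha, he, hf⟩ | ⟨e, he, he'⟩
  · left
    cases v with
    | inl i =>
      by_cases hi : i ∈ I'
      · refine ⟨Sum.inl ⟨i, hi⟩, fun f hf => ?_⟩
        have hf1 : f.1 = ⟨i, hi⟩ := hf
        apply pos_board
        apply hv
        show f.1.val = i
        rw [hf1]
      · exfalso
        obtain ⟨e, he, hei⟩ := H.el i hi
        exact h0 (pos_rho H he (hv e hei))
    | inr j =>
      by_cases hj : j ∈ J'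
      · refine ⟨Sum.inr ⟨j, hj⟩, fun f hf => ?_⟩
        have hf1 : f.2 = ⟨j, hj⟩ := hf
        apply pos_board
        apply hv
        show f.2.val = j
        rw [hf1]
      · exfalso
        obtain ⟨e, he, hej⟩ := H.er j hj
        exact h0 (pos_rho H he (hv e hej))
  · right; left
    have hcl : ∀ g : I × J, ((∅, {g}) : Finset (I × J) × Finset (I × J)) ∈ D →
        g ∈ ρ ∨ ∃ f : {i // i ∈ I'} × {j // j ∈ J'}, emb f = g := by
      intro g hg
      by_contra hcon
      push_neg at hcon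
      exact h0 (neg_off hcon.1 (fun ⟨f, hf⟩ => hcon.2 f hf) hg)
    have hasym : Adj f e := by
      rcases ha with h | h
      · exact Or.inl h.symm
      · exact Or.inr h.symm
    rcases hcl e he with h1 | ⟨e1, rfl⟩
    · rcases hcl f hf with h2 | ⟨f1, rfl⟩
      · exact absurd (H.mat e h1 f h2 ha) hne
      · exact absurd ha (H.not_adj f1 h1)
    · rcases hcl f hf with h2 | ⟨f1, rfl⟩
      · exact absurd hasym (H.not_adj e1 h2)
      · exact ⟨e1, f1, fun h => hne (congrArg emb h), adj_emb.1 ha, neg_board H e1 he,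
          neg_board H f1 hf⟩
  · right; right
    by_cases h1 : e ∈ ρ
    · exact absurd (pos_rho H h1 he) h0
    · by_cases h2 : ∃ f : {i // i ∈ I'} × {j // j ∈ J'}, emb f = e
      · obtain ⟨f, rfl⟩ := h2
        exact ⟨f, pos_board f he, neg_board H f he'⟩
      · exact absurd (neg_off h1 h2 he') h0

theorem prf : S_RES := by
  intro I J _ _ J' t hcard hJ' ht
  obtain ⟨ι⟩ := Function.Embedding.nonempty_of_card_le hcard
  let U : Finset J := Finset.univ \ J'
  have hU : ∀ j, j ∈ U ↔ j ∉ J' := fun j => by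
    show j ∈ Finset.univ \ J' ↔ _
    rw [Finset.mem_sdiff]
    exact ⟨fun h => h.2, fun h => ⟨Finset.mem_univ _, h⟩⟩
  let V : Finset I := U.image ι
  let I' : Finset I := Finset.univ \ V
  have hI' : ∀ i, i ∈ I' ↔ i ∉ V := fun i => by
    show i ∈ Finset.univ \ V ↔ _
    rw [Finset.mem_sdiff]
    exact ⟨fun h => h.2, fun h => ⟨Finset.mem_univ _, h⟩⟩
  let ρ : Finset (I × J) := U.image (fun j => (ι j, j))
  have hρ : ∀ e, e ∈ ρ ↔ e.2 ∈ U ∧ ι e.2 = e.1 := fun e => by
    show e ∈ U.image (fun j => (ι j, j)) ↔ _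
    rw [Finset.mem_image]
    constructor
    · rintro ⟨j, hj, rfl⟩
      exact ⟨hj, rfl⟩
    · rintro ⟨h1, h2⟩
      exact ⟨e.2, h1, Prod.ext h2 rfl⟩
  have H : Rho I' J' ρ := by
    refine ⟨?_, ?_, ?_, ?_, ?_⟩
    · intro e he f hf ha
      obtain ⟨-, h1⟩ := (hρ e).1 he
      obtain ⟨-, h2⟩ := (hρ f).1 hf
      rcases ha with h | h
      · have h3 : e.2 = f.2 := ι.injective (by rw [h1, h2, h])
        exact Prod.ext h h3
      · exact Prod.ext (by rw [← h1, ← h2, h]) h
    · intro e he h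
      obtain ⟨h1, h2⟩ := (hρ e).1 he
      exact (hI' _).1 h (Finset.mem_image.2 ⟨e.2, h1, h2⟩)
    · intro e he h
      obtain ⟨h1, h2⟩ := (hρ e).1 he
      exact (hU _).1 h1 h
    · intro i hi
      rw [hI', not_not] at hi
      obtain ⟨j, hj, hji⟩ := Finset.mem_image.1 hi
      exact ⟨(i, j), (hρ _).2 ⟨hj, hji⟩, rfl⟩
    · intro j hj
      exact ⟨(ι j, j), (hρ _).2 ⟨(hU j).2 hj, rfl⟩, rfl⟩
  have hVc : V.card = U.card := Finset.card_image_of_injective _ ι.injective
  have hUc : U.card + J'.card = Fintype.card J := by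
    have h1 : U.card = Fintype.card J - J'.card := by
      show (Finset.univ \ J').card = _
      rw [Finset.card_univ_sdiff]
    have h2 : J'.card ≤ Fintype.card J := Finset.card_le_univ J'
    omega
  have hIc : I'.card + V.card = Fintype.card I := by
    have h1 : I'.card = Fintype.card I - V.card := by
      show (Finset.univ \ V).card = _
      rw [Finset.card_univ_sdiff]
    have h2 : V.card ≤ Fintype.card I := Finset.card_le_univ V
    omega
  have hkey : I'.card + Fintype.card J = Fintype.card I + J'.card := by omega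
  have hJpos : 0 < J'.card := hJ'.card_pos
  have hI'pos : 0 < I'.card := by omega
  obtain ⟨i0, hi0⟩ := Finset.card_pos.1 hI'pos
  obtain ⟨j0, hj0⟩ := hJ'
  let e0 : {i // i ∈ I'} × {j // j ∈ J'} := (⟨i0, hi0⟩, ⟨j0, hj0⟩)
  let R : Ln I J → Ln {i // i ∈ I'} {j // j ∈ J'} := fun D =>
    if ((∅, ∅) : Finset ({i // i ∈ I'} × {j // j ∈ J'}) × Finset ({i // i ∈ I'} × {j // j ∈ J'}))
      ∈ R0 I' J' ρ D then {({e0}, ∅), (∅, {e0})} else R0 I' J' ρ D
  have hR1 : ∀ D, ((∅, ∅) : Finset ({i // i ∈ I'} × {j // j ∈ J'}) ×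
      Finset ({i // i ∈ I'} × {j // j ∈ J'})) ∈ R0 I' J' ρ D →
      R D = {({e0}, ∅), (∅, {e0})} := fun D h => if_pos h
  have hR2 : ∀ D, ((∅, ∅) : Finset ({i // i ∈ I'} × {j // j ∈ J'}) ×
      Finset ({i // i ∈ I'} × {j // j ∈ J'})) ∉ R0 I' J' ρ D →
      R D = R0 I' J' ρ D := fun D h => if_neg h
  have hsat : ∀ D (b : Finset ({i // i ∈ I'} × {j // j ∈ J'})), Sat (R D) b →
      Sat D (up ρ b) := by
    intro D b hb
    by_cases h : ((∅, ∅) : Finset ({i // i ∈ I'} × {j // j ∈ J'}) ×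
      Finset ({i // i ∈ I'} × {j // j ∈ J'})) ∈ R0 I' J' ρ D
    · rw [← sat_iff H]
      exact ⟨_, h, Finset.empty_subset _, fun e he => absurd he (Finset.notMem_empty _)⟩
    · rw [← sat_iff H, ← hR2 D h]
      exact hb
  refine ⟨I', R, hkey, ?_, ?_, ?_, ?_⟩
  · have h0 : R0 I' J' ρ (∅ : Ln I J) = ∅ := by
      unfold R0
      simp
    rw [hR2 _ (by rw [h0]; exact Finset.notMem_empty _), h0]
  · intro D hD T' hT'
    by_cases h : ((∅, ∅) : Finset ({i // i ∈ I'} × {j // j ∈ J'}) ×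
      Finset ({i // i ∈ I'} × {j // j ∈ J'})) ∈ R0 I' J' ρ D
    · rw [hR1 D h, Finset.mem_insert, Finset.mem_singleton] at hT'
      rcases hT' with rfl | rfl
      · exact Nat.zero_le _
      · show ({e0} : Finset ({i // i ∈ I'} × {j // j ∈ J'})).card ≤ t
        rw [Finset.card_singleton]
        exact ht
    · rw [hR2 D h] at hT'
      unfold R0 at hT'
      obtain ⟨T, hT, rfl⟩ := Finset.mem_image.1 hT'
      exact le_trans (cut_card _) (hD T (Finset.mem_filter.1 hT).1)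
  · intro D T' hT' e he f hf
    by_cases h : ((∅, ∅) : Finset ({i // i ∈ I'} × {j // j ∈ J'}) ×
      Finset ({i // i ∈ I'} × {j // j ∈ J'})) ∈ R0 I' J' ρ D
    · rw [hR1 D h, Finset.mem_insert, Finset.mem_singleton] at hT'
      left
      rcases hT' with rfl | rfl
      · have h1 : e = e0 := Finset.mem_singleton.1 he
        have h2 : f = e0 := Finset.mem_singleton.1 hf
        rw [h1, h2]
      · exact absurd he (Finset.notMem_empty _)
    · rw [hR2 D h] at hT'
      unfold R0 at hT'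
      obtain ⟨T, hT, rfl⟩ := Finset.mem_image.1 hT'
      right
      exact ⟨T, (Finset.mem_filter.1 hT).1, mem_cut.1 he, mem_cut.1 hf⟩
  · intro K Ds hok s
    by_cases h : ((∅, ∅) : Finset ({i // i ∈ I'} × {j // j ∈ J'}) ×
      Finset ({i // i ∈ I'} × {j // j ∈ J'})) ∈ R0 I' J' ρ (Ds s)
    · left
      right; right
      refine ⟨e0, ?_, ?_⟩
      · show _ ∈ R (Ds s)
        rw [hR1 _ h]
        exact Finset.mem_insert_self _ _
      · show _ ∈ R (Ds s)
        rw [hR1 _ h]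
        exact Finset.mem_insert_of_mem (Finset.mem_singleton_self _)
    · rcases hok s with hax | ⟨r, r', hr, hr', himp⟩
      · left
        show AxLine (R (Ds s))
        rw [hR2 _ h]
        exact ax H hax h
      · right
        refine ⟨r, r', hr, hr', fun b hb h1 h2 => ?_⟩
        show Sat (R (Ds s)) b
        rw [hR2 _ h, sat_iff H]
        exact himp _ (mat_up H hb) (hsat _ _ h1) (hsat _ _ h2)

end Pool.Agent.Work.MP_f7ef37_lc.DH.NRES
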