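import Pool.Agent.Work.MP_f7ef37_lc.DH.Stmts

/-!
# [f7ef37 DH] Item TAME2
-/

set_option autoImplicit false

open Classical

namespace Pool.Agent.Work.MP_f7ef37_lc.DH.NTAME2

open Pool.Agent.Work.MP_f7ef37_lc.OP

theorem mem_CoN' {I J : Type} [Fintype I] [Fintype J] (D : Ln I J) (Y : Finset (I ⊕ J))
    (e : I × J) (v : I ⊕ J) (f : I × J) (h : f ∈ CoN D Y e v) :
    Inc v f ∧ Avd Y f ∧ ∃ T ∈ D, e ∈ T.1 ∧ f ∈ T.1 := by
  unfold CoN OP.star at h
  rw [Finset.mem_filter, Finset.mem_filter] at h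
  exact ⟨h.1.2, h.2⟩

theorem key {I J : Type} [Fintype I] [Fintype J] (I' : Finset I) (J' : Finset J)
    (D : Ln I J) (D' : Ln {i // i ∈ I'} {j // j ∈ J'}) (Y : Finset I) (C : Finset J)
    (Y' : Finset ({i // i ∈ I'} ⊕ {j // j ∈ J'}))
    (h1 : ∀ T' ∈ D', ∀ e ∈ T'.1, ∀ f ∈ T'.1, e = f ∨
      ∃ T ∈ D, (e.1.val, e.2.val) ∈ T.1 ∧ (f.1.val, f.2.val) ∈ T.1)
    (h2 : ∀ q ∈ jn D Y, q.1 ∈ J' → q.2 ∈ J' → q.1 ∈ C ∨ q.2 ∈ C)
    (hl : ∀ i : {i // i ∈ I'}, i.val ∈ Y → Sum.inl i ∈ Y')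
    (hr : ∀ j : {j // j ∈ J'}, j.val ∈ C → Sum.inr j ∈ Y')
    (e f : {i // i ∈ I'} × {j // j ∈ J'}) (he : Avd Y' e) (hf : Avd Y' f)
    (hT : ∃ T ∈ D', e ∈ T.1 ∧ f ∈ T.1) (hne : e ≠ f) (h3 : e.1 ≠ f.1) (h4 : e.2 ≠ f.2) : False := by
  obtain ⟨T', hT', he', hf'⟩ := hT
  rcases h1 T' hT' e he' f hf' with h | ⟨T, hT, heT, hfT⟩
  · exact hne h
  · have hq : (e.2.val, f.2.val) ∈ jn D Y := by
      unfold jn
      rw [Finset.mem_filter]
      refine ⟨Finset.mem_univ _, fun h => h4 (Subtype.ext h), T, hT, e.1.val, f.1.val,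
        fun h => h3 (Subtype.ext h), ?_, ?_, heT, hfT⟩
      · intro h
        exact he (Sum.inl e.1) (hl e.1 h) rfl
      · intro h
        exact hf (Sum.inl f.1) (hl f.1 h) rfl
    rcases h2 _ hq e.2.property f.2.property with h | h
    · exact he (Sum.inr e.2) (hr e.2 h) rfl
    · exact hf (Sum.inr f.2) (hr f.2 h) rfl

theorem prf : S_TAME2 := by
  intro I J _ _ I' J' D D' Y C h1 h2
  obtain ⟨Y', hY'⟩ : ∃ Y' : Finset ({i // i ∈ I'} ⊕ {j // j ∈ J'}), ∀ v, v ∈ Y' ↔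
      Sum.map Subtype.val Subtype.val v ∈ Y.disjSum C := by
    refine ⟨Finset.univ.filter (fun v => Sum.map Subtype.val Subtype.val v ∈ Y.disjSum C), ?_⟩
    intro v
    rw [Finset.mem_filter]
    exact ⟨fun h => h.2, fun h => ⟨Finset.mem_univ _, h⟩⟩
  have hl : ∀ i : {i // i ∈ I'}, i.val ∈ Y → Sum.inl i ∈ Y' := by
    intro i hi
    rw [hY']
    exact Finset.inl_mem_disjSum.2 hi
  have hr : ∀ j : {j // j ∈ J'}, j.val ∈ C → Sum.inr j ∈ Y' := by
    intro j hj
    rw [hY']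
    exact Finset.inr_mem_disjSum.2 hj
  refine ⟨Y', ?_, ?_⟩
  · rw [← Finset.card_disjSum]
    refine Finset.card_le_card_of_injOn (Sum.map Subtype.val Subtype.val) ?_ ?_
    · intro v hv
      exact (hY' v).1 hv
    · exact (Sum.map_injective.2 ⟨Subtype.val_injective, Subtype.val_injective⟩).injOn
  · intro e v hev hae hv
    rw [Finset.card_le_one]
    have hval : ∀ f ∈ CoN D' Y' e v, e.1 = f.1 ∨ e.2 = f.2 := by
      intro f hf
      obtain ⟨f1, f2, f3⟩ := mem_CoN' D' Y' e v f hf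
      by_contra hcon
      push Not at hcon
      exact key I' J' D D' Y C Y' h1 h2 hl hr e f hae f2 f3
        (fun h => hcon.1 (by rw [h])) hcon.1 hcon.2
    intro f hf g hg
    obtain ⟨f1, -, -⟩ := mem_CoN' D' Y' e v f hf
    obtain ⟨g1, -, -⟩ := mem_CoN' D' Y' e v g hg
    have hf4 := hval f hf
    have hg4 := hval g hg
    cases v with
    | inl i =>
      have a1 : f.1 = i := f1
      have a2 : g.1 = i := g1
      have a3 : ¬ e.1 = i := hev
      have b1 : e.2 = f.2 := by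
        rcases hf4 with h | h
        · exact absurd (h.trans a1) a3
        · exact h
      have b2 : e.2 = g.2 := by
        rcases hg4 with h | h
        · exact absurd (h.trans a2) a3
        · exact h
      exact Prod.ext (a1.trans a2.symm) (b1.symm.trans b2)
    | inr j =>
      have a1 : f.2 = j := f1
      have a2 : g.2 = j := g1
      have a3 : ¬ e.2 = j := hev
      have b1 : e.1 = f.1 := by
        rcases hf4 with h | h
        · exact h
        · exact absurd (h.trans a1) a3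
      have b2 : e.1 = g.1 := by
        rcases hg4 with h | h
        · exact h
        · exact absurd (h.trans a2) a3
      exact Prod.ext (b1.symm.trans b2) (a1.trans a2.symm)

end Pool.Agent.Work.MP_f7ef37_lc.DH.NTAME2
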