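import Pool.Agent.Work.MP_f7ef37_lc.OP.Main
import Pool.Agent.Work.MP_f7ef37_lc.DH.I_BOARD3
import Pool.Agent.Work.MP_f7ef37_lc.DH.I_RAND
import Pool.Agent.Work.MP_f7ef37_lc.DH.I_RES
import Pool.Agent.Work.MP_f7ef37_lc.DH.I_TAME2
import Pool.Agent.Work.MP_f7ef37_lc.DH.I_NUM
import Pool.Agent.Work.MP_f7ef37_lc.DH.I_FINC
import Pool.Agent.Work.MP_f7ef37_lc.DH.I_QUASIC

/-!
# Assembly of all items of the block [f7ef37 DH]
-/

set_option autoImplicit false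

open Classical

namespace Pool.Agent.Work.MP_f7ef37_lc.DH

theorem dhc : S_DHC :=
  NFINC.prf NBOARD3.prf NRAND.prf NRES.prf NTAME2.prf NNUM.prf Pool.Agent.Work.MP_f7ef37_lc.OP.core

theorem quasic : S_QUASIC := NQUASIC.prf dhc

end Pool.Agent.Work.MP_f7ef37_lc.DH
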