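import Pool.Agent.Work.MP_f7ef37_lc.OP.Stmts3

/-!
# Statements of the block [f7ef37 DH]: refutations join many pairs of holes
-/

set_option autoImplicit false

open Classical

namespace Pool.Agent.Work.MP_f7ef37_lc.DH

open Pool.Agent.Work.MP_f7ef37_lc.OP

/-- The ordered pairs of holes which the line `D` joins outside the set `Y` of pigeons: pairs
`(j, j')`, `j ≠ j'`, such that for some pigeons `i ≠ i'` not in `Y` the variables `x_ij` and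
`x_i'j'` occur unnegated in a common conjunction of `D`. -/
noncomputable def joined {m n : ℕ} (D : Finset (Finset (Fin m × Fin n × Bool)))
    (Y : Finset (Fin m)) : Finset (Fin n × Fin n) :=
  Finset.univ.filter (fun q => q.1 ≠ q.2 ∧ ∃ T ∈ D, ∃ i i' : Fin m, i ≠ i' ∧ i ∉ Y ∧ i' ∉ Y ∧
    (i, q.1, true) ∈ T ∧ (i', q.2, true) ∈ T)

/-- The same on a board. -/
noncomputable def jn {I J : Type} [Fintype I] [Fintype J] (D : Ln I J) (Y : Finset I) :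
    Finset (J × J) :=
  Finset.univ.filter (fun q => q.1 ≠ q.2 ∧ ∃ T ∈ D, ∃ i i' : I, i ≠ i' ∧ i ∉ Y ∧ i' ∉ Y ∧
    (i, q.1) ∈ T.1 ∧ (i', q.2) ∈ T.1)

/-- BOARD2. As `S_BOARD` of the block OP (copy its proof, file `OP/I_BOARD.lean`), with another
property of the lines. The board is `{i // i ∈ M} × Fin n`, `Ds s = (P s').image (tr M)`; take
`Y' = {i | i.val ∈ Y}`; then `jn (Ds s) Y' ⊆ joined (P s') Y`. -/
def S_BOARD2 : Prop := ∀ (t m n k : ℕ) (P : Fin (k + 1) → Finset (Finset (Fin m × Fin n × Bool)))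
  (L g : ℕ), 1 ≤ n → n < m → IsRef t m n k P →
  (∀ s, ∃ Y : Finset (Fin m), Y.card ≤ L ∧ (joined (P s) Y).card ≤ g) →
  ∃ (I : Type) (_ : Fintype I) (K : ℕ) (Ds : Fin K → Ln I (Fin n)),
    n ≤ Fintype.card I ∧ (Fintype.card I : ℝ) ≤ max (size P) n ∧ (K : ℝ) ≤ size P + 1 ∧
    (∀ s, ∀ T ∈ Ds s, T.2.card ≤ t) ∧ (∀ s, OkLine Ds s) ∧ (∃ s, Ds s = ∅) ∧
    ∀ s, ∃ Y : Finset I, Y.card ≤ L ∧ (jn (Ds s) Y).card ≤ g

/-- RAND. A random set of `n'` holes. Blocks: hole `a * B + b`, `a < n'`, `b < B`; for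
`h : Fin n' → Fin B` let `J' h` be the set of all `a * B + h a`. (1) For a set `S` of holes the
number of `h` with `S ⊆ J' h` times `B ^ S.card` is at most `B ^ n'`: if there is such an `h`, the
holes of `S` are in distinct blocks and `h` is determined on these blocks
(`Fintype.piFinset`). (2) Sum over all `s` and all `Z ⊆ G s` with `Z.card = k` and
`(Z.image Prod.fst ∪ Z.image Prod.snd).card = 2 * k` (at most `K * g ^ k` in number): the number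
of `h` for which some such set of `2 * k` holes is contained in `J' h` is less than `B ^ n'`. So
there is an `h` without such sets. (3) Induction on `k`: either there is such a `Z` with all
holes in `J'`, or there is a cover `C` with at most `2 * k` holes. -/
def S_RAND : Prop := ∀ (n n' B k K g : ℕ) (G : Fin K → Finset (Fin n × Fin n)),
  (∀ s, ∀ q ∈ G s, q.1 ≠ q.2) → n' * B ≤ n → 1 ≤ B → (∀ s, (G s).card ≤ g) →
  K * g ^ k < B ^ (2 * k) →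
  ∃ J' : Finset (Fin n), J'.card = n' ∧ ∀ s, ∃ C : Finset (Fin n), C ⊆ J' ∧ C.card ≤ 2 * k ∧
    ∀ q ∈ G s, q.1 ∈ J' → q.2 ∈ J' → q.1 ∈ C ∨ q.2 ∈ C

/-- RES. Restriction. Let `ι : J → I` be injective, `ρ` = the set of all `(ι j, j)`, `j ∉ J'`,
`I'` = the pigeons not of the form `ι j`, `j ∉ J'`. Board edges: `i ∈ I'`, `j ∈ J'`; they do not
meet `ρ`, and every other edge is in `ρ` or meets an edge of `ρ`. `R0 D`: the terms `T ∈ D` with
all edges of `T.1` in `ρ` or on the board and no edge of `T.2` in `ρ`, cut down to the board.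
`Sat (R0 D) b ↔ Sat D (ρ ∪ b)` (`b` embedded in `I × J`). If `(∅, ∅) ∈ R0 D` then `R D` is the
excluded middle `{({e0}, ∅), (∅, {e0})}` for a board edge `e0` (then `Sat D (ρ ∪ b)` for all `b`),
otherwise `R D = R0 D`. Axiom lines become axiom lines or `(∅, ∅) ∈ R0 D`. -/
def S_RES : Prop := ∀ (I J : Type) [Fintype I] [Fintype J] (J' : Finset J) (t : ℕ),
  Fintype.card J ≤ Fintype.card I → J'.Nonempty → 1 ≤ t →
  ∃ (I' : Finset I) (R : Ln I J → Ln {i // i ∈ I'} {j // j ∈ J'}),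
    I'.card + Fintype.card J = Fintype.card I + J'.card ∧ R ∅ = ∅ ∧
    (∀ D, (∀ T ∈ D, T.2.card ≤ t) → ∀ T ∈ R D, T.2.card ≤ t) ∧
    (∀ D, ∀ T' ∈ R D, ∀ e ∈ T'.1, ∀ f ∈ T'.1, e = f ∨
      ∃ T ∈ D, (e.1.val, e.2.val) ∈ T.1 ∧ (f.1.val, f.2.val) ∈ T.1) ∧
    ∀ (K : ℕ) (Ds : Fin K → Ln I J), (∀ s, OkLine Ds s) → ∀ s, OkLine (fun r => R (Ds r)) s

/-- TAME2. `Y'` = the pigeons of the board in `Y` and the holes of the board in `C`. For `e`, `v`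
outside `Y'`, `v` not on `e`: if `f` at `v`, outside `Y'`, occurs with `e` in `T'.1`, then
`e ≠ f`, and if `f.1 ≠ e.1` and `f.2 ≠ e.2` then `(e.2, f.2) ∈ jn D Y` is not met by `C`,
impossible. So `f = (v, e.2)` (`v` a pigeon) or `f = (e.1, v)` (`v` a hole): at most one `f`. -/
def S_TAME2 : Prop := ∀ (I J : Type) [Fintype I] [Fintype J] (I' : Finset I) (J' : Finset J)
  (D : Ln I J) (D' : Ln {i // i ∈ I'} {j // j ∈ J'}) (Y : Finset I) (C : Finset J),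
  (∀ T' ∈ D', ∀ e ∈ T'.1, ∀ f ∈ T'.1, e = f ∨
    ∃ T ∈ D, (e.1.val, e.2.val) ∈ T.1 ∧ (f.1.val, f.2.val) ∈ T.1) →
  (∀ q ∈ jn D Y, q.1 ∈ J' → q.2 ∈ J' → q.1 ∈ C ∨ q.2 ∈ C) →
  ∃ Y' : Finset ({i // i ∈ I'} ⊕ {j // j ∈ J'}), Y'.card ≤ Y.card + C.card ∧ TameAt D' Y' 1

/-- NUM. With `n' = (2 L) ^ 80`, `B = n / n' ≥ n / (2 n')`, `g = n ^ 2 / L ^ 170`, `k = L / 2`:
`g / B ^ 2 ≤ 4 n' ^ 2 / L ^ 170 = 2 ^ 162 / L ^ 10 ≤ 1 / L ^ 9` for `L ≥ 2 ^ 162`, `k ≥ L / 3`,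
`K ≤ exp (2 L)`. -/
def S_NUM : Prop := ∃ L0 : ℕ, ∀ L ≥ L0, ∀ n K : ℕ, L ^ 81 ≤ n → (K : ℝ) ≤ Real.exp (2 * L) →
  (2 * L) ^ 80 ≤ n ∧ 1 ≤ n / (2 * L) ^ 80 ∧
  K * (n ^ 2 / L ^ 170) ^ (L / 2) < (n / (2 * L) ^ 80) ^ (2 * (L / 2))

/-- The theorem. -/
def S_DH : Prop := ∃ n0 : ℕ, ∀ n ≥ n0, ∀ m > n, ∀ L : ℕ, Real.log n ≤ L → L ^ 81 ≤ n →
  ∀ t ≤ L, ∀ (k : ℕ) (P : Fin (k + 1) → Finset (Finset (Fin m × Fin n × Bool))),
    IsRef t m n k P → size P ≤ Real.exp L →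
    ∃ s, ∀ Y : Finset (Fin m), Y.card ≤ L → n ^ 2 < L ^ 170 * (joined (P s) Y).card

/-- QUASI: the theorem for quasi-polynomial size. Copy the proof of `quasi_of` in
`OP/Final.lean`: `L = ⌈(log n) ^ (c + 1)⌉`, `L ≤ (log n) ^ (c + 2)`, `C = 170 (c + 2)`. -/
def S_QUASI : Prop := ∀ t c : ℕ, ∃ C : ℕ, ∀ᶠ n : ℕ in Filter.atTop, ∀ m > n,
    ∀ (k : ℕ) (P : Fin (k + 1) → Finset (Finset (Fin m × Fin n × Bool))),
    IsRef t m n k P → size P ≤ Real.exp ((Real.log (n : ℝ)) ^ c) →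
    ∃ s, ∀ Y : Finset (Fin m), (Y.card : ℝ) ≤ (Real.log (n : ℝ)) ^ c →
      (n : ℝ) ^ 2 < (Real.log n) ^ C * (joined (P s) Y).card

end Pool.Agent.Work.MP_f7ef37_lc.DH
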