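import Pool.Agent.Work.MP_f7ef37_lc.DH.Stmts

/-!
# Statements of the block [f7ef37 DH], second part: only consistent conjunctions count
-/

set_option autoImplicit false

open Classical

namespace Pool.Agent.Work.MP_f7ef37_lc.DH

open Pool.Agent.Work.MP_f7ef37_lc.OP

/-- The conjunction `T` is consistent: two different unnegated variables of `T` have different
pigeons and different holes, and no variable occurs in `T` both unnegated and negated. -/
def Cons {m n : ℕ} (T : Finset (Fin m × Fin n × Bool)) : Prop :=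
  (∀ i j i' j', (i, j, true) ∈ T → (i', j', true) ∈ T → i = i' ∨ j = j' → i = i' ∧ j = j') ∧
  ∀ i j, (i, j, true) ∈ T → (i, j, false) ∉ T

/-- The ordered pairs of holes which the line `D` joins outside the set `Y` of pigeons: pairs
`(j, j')`, `j ≠ j'`, such that for some pigeons `i ≠ i'` not in `Y` the variables `x_ij` and
`x_i'j'` occur unnegated in a common consistent conjunction of `D`. -/
noncomputable def joins {m n : ℕ} (D : Finset (Finset (Fin m × Fin n × Bool)))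
    (Y : Finset (Fin m)) : Finset (Fin n × Fin n) :=
  Finset.univ.filter (fun q => q.1 ≠ q.2 ∧ ∃ T ∈ D, Cons T ∧ ∃ i i' : Fin m, i ≠ i' ∧ i ∉ Y ∧
    i' ∉ Y ∧ (i, q.1, true) ∈ T ∧ (i', q.2, true) ∈ T)

/-- BOARD3. As `S_BOARD2`; the lines on the board are cleaned: only the terms `T` with `Mat T.1`
and `Disjoint T.1 T.2` are kept. -/
def S_BOARD3 : Prop := ∀ (t m n k : ℕ) (P : Fin (k + 1) → Finset (Finset (Fin m × Fin n × Bool)))
  (L g : ℕ), 1 ≤ n → n < m → IsRef t m n k P →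
  (∀ s, ∃ Y : Finset (Fin m), Y.card ≤ L ∧ (joins (P s) Y).card ≤ g) →
  ∃ (I : Type) (_ : Fintype I) (K : ℕ) (Ds : Fin K → Ln I (Fin n)),
    n ≤ Fintype.card I ∧ (Fintype.card I : ℝ) ≤ max (size P) n ∧ (K : ℝ) ≤ size P + 1 ∧
    (∀ s, ∀ T ∈ Ds s, T.2.card ≤ t) ∧ (∀ s, OkLine Ds s) ∧ (∃ s, Ds s = ∅) ∧
    ∀ s, ∃ Y : Finset I, Y.card ≤ L ∧ (jn (Ds s) Y).card ≤ g

/-- The theorem. -/
def S_DHC : Prop := ∃ n0 : ℕ, ∀ n ≥ n0, ∀ m > n, ∀ L : ℕ, Real.log n ≤ L → L ^ 81 ≤ n →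
  ∀ t ≤ L, ∀ (k : ℕ) (P : Fin (k + 1) → Finset (Finset (Fin m × Fin n × Bool))),
    IsRef t m n k P → size P ≤ Real.exp L →
    ∃ s, ∀ Y : Finset (Fin m), Y.card ≤ L → n ^ 2 < L ^ 170 * (joins (P s) Y).card

/-- QUASIC: the theorem for quasi-polynomial size. -/
def S_QUASIC : Prop := ∀ t c : ℕ, ∃ C : ℕ, ∀ᶠ n : ℕ in Filter.atTop, ∀ m > n,
    ∀ (k : ℕ) (P : Fin (k + 1) → Finset (Finset (Fin m × Fin n × Bool))),
    IsRef t m n k P → size P ≤ Real.exp ((Real.log (n : ℝ)) ^ c) →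
    ∃ s, ∀ Y : Finset (Fin m), (Y.card : ℝ) ≤ (Real.log (n : ℝ)) ^ c →
      (n : ℝ) ^ 2 < (Real.log n) ^ C * (joins (P s) Y).card

end Pool.Agent.Work.MP_f7ef37_lc.DH
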